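import Mathlib
import Pool.Agent.Lib.MP_07b2d0_nt.Inf

/-!
The `S`-part of the height, and four numbers whose squares differ by as little as possible.
-/

set_option autoImplicit false

namespace Pool.Agent.Lib.MP_07b2d0_nt.Af

open Finset Real NumberField Height Module

variable {K : Type} [Field K] [NumberField K] {n N : ℕ}

/-- The part of the height coming from the places dividing `N ∞`. -/
noncomputable def hS (N : ℕ) (x : K) : ℝ :=
  ∑ w : InfinitePlace K, w.mult * log⁺ (w x) + ∑ v ∈ supp (N : K), log⁺ (v x)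

theorem hS_eq (hN : N ≠ 0) {x : K} (hx : x ∈ RN K N) : logHeight₁ x = hS N x :=
  logHeight_eq_of_mem hN hx

theorem hS_mul (x y : K) : hS N (x * y) ≤ hS N x + hS N y := by
  have h1 : ∑ w : InfinitePlace K, w.mult * log⁺ (w (x * y)) ≤
      ∑ w : InfinitePlace K, (w.mult * log⁺ (w x) + w.mult * log⁺ (w y)) :=
    sum_le_sum fun w _ => by
      rw [map_mul, ← mul_add]
      exact mul_le_mul_of_nonneg_left posLog_mul (by positivity)
  have h2 : ∑ v ∈ supp (N : K), log⁺ (v (x * y)) ≤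
      ∑ v ∈ supp (N : K), (log⁺ (v x) + log⁺ (v y)) :=
    sum_le_sum fun v _ => by rw [map_mul]; exact posLog_mul
  rw [sum_add_distrib] at h1 h2
  simp only [hS]
  linarith

theorem hS_neg (x : K) : hS N (-x) = hS N x := by
  have : ∀ w : InfinitePlace K, w (-x) = w x := fun w => w.1.map_neg x
  simp only [hS, map_neg_eq_map, this]

theorem hS_one : hS N (1 : K) = 0 := by simp [hS]

theorem hS_add (hD : finrank ℚ K ≤ n) (x y : K) : hS N (x + y) ≤ n + hS N x + hS N y := by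
  have h1 : ∑ w : InfinitePlace K, w.mult * log⁺ (w (x + y)) ≤
      ∑ w : InfinitePlace K, (w.mult + w.mult * log⁺ (w x) + w.mult * log⁺ (w y)) :=
    sum_le_sum fun w _ => by
      have e1 : log⁺ (w (x + y)) ≤ 1 + log⁺ (w x) + log⁺ (w y) := by
        have e2 := (posLog_le_posLog (apply_nonneg w _) (w.1.add_le x y)).trans posLog_add
        have e3 := Real.log_two_lt_d9
        exact e2.trans (by change _ + log⁺ (w x) + log⁺ (w y) ≤ _; linarith)
      have e4 := mul_le_mul_of_nonneg_left e1 (Nat.cast_nonneg (α := ℝ) w.mult)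
      linarith
  have h2 : ∑ v ∈ supp (N : K), log⁺ (v (x + y)) ≤
      ∑ v ∈ supp (N : K), (log⁺ (v x) + log⁺ (v y)) :=
    sum_le_sum fun v _ => by
      refine (posLog_le_posLog (apply_nonneg v _) (v.add_le x y)).trans ?_
      rcases le_total (v x) (v y) with h | h
      · rw [max_eq_right h]; linarith [posLog_nonneg (x := v x)]
      · rw [max_eq_left h]; linarith [posLog_nonneg (x := v y)]
  have h3 : ∑ w : InfinitePlace K, (w.mult : ℝ) ≤ n := by
    rw [← Nat.cast_sum, InfinitePlace.sum_mult_eq]; exact_mod_cast hD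
  rw [sum_add_distrib] at h2
  rw [sum_add_distrib, sum_add_distrib] at h1
  simp only [hS]
  linarith

theorem hS_inv (x : K) : hS N x⁻¹ = hS N x - nu N x := by
  have e : ∀ t : ℝ, log⁺ t⁻¹ = log⁺ t - log t := fun t => by
    linarith [posLog_sub_posLog_inv (x := t)]
  simp only [hS, nu, nuInf, map_inv₀, e, mul_sub, sum_sub_distrib]
  ring

/-- Baker's bound: a unit is not close to `1` at the places of `S`. -/
theorem hS_bk (s : Small K n N) {u : K} (hu : IsU N u) (h1 : u - 1 ≠ 0) :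
    hS N (u - 1)⁻¹ ≤ logHeight₁ u / n + n + nfC n := by
  have e1 := s.bk hu h1
  have e2 := h_sub_le s.hD u 1
  rw [logHeight₁_one] at e2
  rw [hS_inv, ← hS_eq s.hN (sub_mem hu.2.1 (one_mem _))]
  linarith

theorem mem_RN_of_quad {u τ : K} (hτ : τ ∈ RN K N) (h : u * u = τ * u - 1) : u ∈ RN K N := by
  intro v hv
  by_contra hu
  rw [not_le] at hu
  have e1 : v (u * u) ≤ max (v (τ * u)) (v (-1 : K)) := by
    rw [h, sub_eq_add_neg]; exact v.add_le _ _
  rw [map_mul, map_mul, map_neg_eq_map, map_one] at e1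
  have e2 := hτ v hv
  have e3 : v τ * v u ≤ v u := mul_le_of_le_one_left (apply_nonneg _ _) e2
  have e4 := e1.trans (max_le e3 hu.le)
  nlinarith

theorem isU_of_sq {x : K} (h : IsU N (x ^ 2)) : IsU N x :=
  ⟨fun h0 => h.1 (by simp [h0]), mem_RN_of_sq h.2.1, mem_RN_of_sq (by rw [inv_pow]; exact h.2.2)⟩

/-- The condition on a pair. -/
structure Pr (N : ℕ) (H : ℝ) (p q : K) : Prop where
  p0 : p ≠ 0
  q0 : q ≠ 0
  ne : p ^ 2 - q ^ 2 ≠ 0
  int : q ^ 2 / (p ^ 2 - q ^ 2) ∈ RN K N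
  ht : logHeight₁ (p / q) ≤ H

variable {H : ℝ} {p q r t : K}

theorem Pr.neg_left (h : Pr N H p q) : Pr N H (-p) q :=
  ⟨neg_ne_zero.mpr h.p0, h.q0, by simpa using h.ne, by simpa using h.int,
    by rw [neg_div, logHeight₁_neg]; exact h.ht⟩

theorem Pr.sub_ne (h : Pr N H p q) : p - q ≠ 0 := fun e =>
  h.ne (by linear_combination (p + q) * e)

theorem Pr.add_ne (h : Pr N H p q) : p + q ≠ 0 := fun e =>
  h.ne (by linear_combination (p - q) * e)

theorem Pr.unit (h : Pr N H p q) : IsU N ((p - q) / (p + q)) := by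
  have e1 := h.sub_ne
  have e2 := h.add_ne
  have e3 : p ^ 2 - q ^ 2 = (p - q) * (p + q) := by ring
  have hτ : 2 + 4 * (q ^ 2 / (p ^ 2 - q ^ 2)) ∈ RN K N :=
    add_mem (ofNat_mem _ 2) (mul_mem (ofNat_mem _ 4) h.int)
  refine ⟨div_ne_zero e1 e2, mem_RN_of_quad hτ ?_, mem_RN_of_quad hτ ?_⟩
  · rw [e3]; field_simp; ring
  · rw [e3]; field_simp; ring

theorem Pr.ht_add (hD : finrank ℚ K ≤ n) (h : Pr N H p q) : logHeight₁ (1 + p / q) ≤ n + H := by
  have e1 := h_add_le hD 1 (p / q)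
  rw [logHeight₁_one] at e1
  linarith [h.ht]

theorem Pr.hS_div (s : Small K n N) (h : Pr N H p q) :
    hS N (p / q) ≤ (2 * H + 2 * n) / n + 3 * n + nfC n := by
  have e1 := h.add_ne
  have e2 := h.q0
  have e3 : (p - q) / (p + q) - 1 = -(2 * q) / (p + q) := by field_simp; ring
  have e4 := hS_bk s h.unit (by
    rw [e3]; exact div_ne_zero (neg_ne_zero.mpr (mul_ne_zero two_ne_zero e2)) e1)
  have e5 : logHeight₁ ((p - q) / (p + q)) ≤ 2 * H + 2 * n := by
    have e6 : (p - q) / (p + q) = -((1 + -p / q) / (1 + p / q)) := by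
      have : q + p ≠ 0 := by rwa [add_comm]
      field_simp; ring
    have e7 := h_div_le (1 + -p / q) (1 + p / q)
    rw [e6, logHeight₁_neg]
    linarith [h.ht_add s.hD, h.neg_left.ht_add s.hD]
  have e8 : p / q = -(2 * ((p - q) / (p + q) - 1)⁻¹) + -1 := by rw [e3]; field_simp; ring
  have e9 := hS_add (N := N) s.hD (-(2 * ((p - q) / (p + q) - 1)⁻¹)) (-1)
  have e10 := hS_mul (N := N) 2 ((p - q) / (p + q) - 1)⁻¹
  have e11 := h_two_le (K := K) s.hD
  rw [hS_eq s.hN (ofNat_mem _ 2)] at e11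
  rw [← e8, hS_neg, hS_neg, hS_one] at e9
  have e12 := div_le_div_of_nonneg_right e5 (Nat.cast_nonneg (α := ℝ) n)
  linarith

/-- The condition on a quadruple. -/
structure Qd (N : ℕ) (H : ℝ) (p q r t : K) : Prop where
  pq : Pr N H p q
  rp : Pr N H r p
  tp : Pr N H t p
  rq : Pr N H r q
  tq : Pr N H t q
  unit : IsU N (q ^ 2 * (r ^ 2 - p ^ 2) * (t ^ 2 - p ^ 2) /
    (p ^ 2 * (r ^ 2 - q ^ 2) * (t ^ 2 - q ^ 2)))
  ne : (p * q) ^ 2 - (r * t) ^ 2 ≠ 0

theorem Qd.neg_r (h : Qd N H p q r t) : Qd N H p q (-r) t :=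
  ⟨h.pq, h.rp.neg_left, h.tp, h.rq.neg_left, h.tq, by simpa using h.unit, by simpa using h.ne⟩

theorem Qd.neg_t (h : Qd N H p q r t) : Qd N H p q r (-t) :=
  ⟨h.pq, h.rp, h.tp.neg_left, h.rq, h.tq.neg_left, by simpa using h.unit, by simpa using h.ne⟩

theorem Qd.one (s : Small K n N) (h : Qd N H p q r t) :
    ∃ y : K, hS N y ≤ (5 * H + 4 * n) / n + n + nfC n ∧
      y * (1 + -(r / p * (t / q))) = (q + r) * (q + t) / (q * (p - q)) := by
  have p0 := h.pq.p0
  have q0 := h.pq.q0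
  have a1 := h.rp.add_ne
  have a2 := h.tp.add_ne
  have a3 := h.rq.add_ne
  have a4 := h.tq.add_ne
  have b1 := h.rp.sub_ne
  have b2 := h.tp.sub_ne
  have b3 := h.rq.sub_ne
  have b4 := h.tq.sub_ne
  have b5 := h.pq.sub_ne
  have b6 : p * q - r * t ≠ 0 := fun e => h.ne (by linear_combination (p * q + r * t) * e)
  obtain ⟨φ, hφ⟩ : ∃ φ, φ = q * (r + p) * (t + p) / (p * (r + q) * (t + q)) := ⟨_, rfl⟩
  have hU : IsU N φ := by
    refine isU_of_sq ?_
    have e1 := (h.unit.mul (h.rq.unit.mul h.tq.unit)).div (h.rp.unit.mul h.tp.unit)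
    have e2 : ∀ a b : K, a ^ 2 - b ^ 2 = (a - b) * (a + b) := fun a b => by ring
    rw [e2 r p, e2 t p, e2 r q, e2 t q] at e1
    convert e1 using 1
    rw [hφ]; field_simp
  have e3 : φ - 1 = (p - q) * (p * q - r * t) / (p * (r + q) * (t + q)) := by
    rw [hφ]; field_simp; ring
  have e4 := hS_bk s hU (by
    rw [e3]; exact div_ne_zero (mul_ne_zero b5 b6) (mul_ne_zero (mul_ne_zero p0 a3) a4))
  have e5 : logHeight₁ φ ≤ 5 * H + 4 * n := by
    have e6 : φ = p / q * ((1 + r / p) * (1 + t / p)) / ((1 + r / q) * (1 + t / q)) := by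
      have : q + r ≠ 0 := by rwa [add_comm]
      have : q + t ≠ 0 := by rwa [add_comm]
      rw [hφ]; field_simp; ring
    have e7 := h_div_le (p / q * ((1 + r / p) * (1 + t / p))) ((1 + r / q) * (1 + t / q))
    have e8 := logHeight₁_mul_le (p / q) ((1 + r / p) * (1 + t / p))
    have e9 := logHeight₁_mul_le (1 + r / p) (1 + t / p)
    have e10 := logHeight₁_mul_le (1 + r / q) (1 + t / q)
    rw [e6]
    linarith [h.pq.ht, h.rp.ht_add s.hD, h.tp.ht_add s.hD, h.rq.ht_add s.hD, h.tq.ht_add s.hD]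
  refine ⟨(φ - 1)⁻¹, e4.trans ?_, ?_⟩
  · linarith [div_le_div_of_nonneg_right e5 (Nat.cast_nonneg (α := ℝ) n)]
  · rw [e3]; field_simp; ring

theorem Qd.ht_le (s : Small K n N) (hn : 80 ≤ n) (h : Qd N H p q r t) :
    logHeight₁ (p / q) ≤ H / 2 + 25 * n + 8 * nfC n := by
  have hH : 0 ≤ H := (zero_le_logHeight₁ _).trans h.pq.ht
  have hn' : (80 : ℝ) ≤ n := by exact_mod_cast hn
  have q0 := h.pq.q0
  have b5 := h.pq.sub_ne
  obtain ⟨y1, u1, e1⟩ := h.one s
  obtain ⟨y2, u2, e2⟩ := h.neg_r.neg_t.one s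
  obtain ⟨y3, u3, e3⟩ := h.neg_r.one s
  obtain ⟨y4, u4, e4⟩ := h.neg_t.one s
  have k1 := h.rp.hS_div s
  have k2 := h.tq.hS_div s
  have k3 := hS_mul (N := N) (r / p) (t / q)
  rw [neg_div, neg_div, neg_mul_neg] at e2
  rw [neg_div, neg_mul, neg_neg] at e3
  rw [neg_div, mul_neg, neg_neg] at e4
  generalize r / p * (t / q) = κ at *
  have k4 := hS_add (N := N) s.hD 1 κ
  have k5 := hS_add (N := N) s.hD 1 (-κ)
  rw [hS_neg] at k5
  rw [hS_one] at k4 k5
  have e5 : 4 * q / (p - q) = (y1 + y2) * (1 + -κ) + (y3 + y4) * (1 + κ) := by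
    rw [add_mul, add_mul, e1, e2, e3, e4]; field_simp; ring
  have k6 := hS_add (N := N) s.hD ((y1 + y2) * (1 + -κ)) ((y3 + y4) * (1 + κ))
  have k7 := hS_mul (N := N) (y1 + y2) (1 + -κ)
  have k8 := hS_mul (N := N) (y3 + y4) (1 + κ)
  have k9 := hS_add (N := N) s.hD y1 y2
  have k10 := hS_add (N := N) s.hD y3 y4
  have hI : 4 * q / (p - q) ∈ RN K N := by
    have e6 : 4 * q / (p - q) = 2 * (((p - q) / (p + q))⁻¹ - 1) := by
      rw [inv_div]; field_simp; ring
    rw [e6]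
    exact mul_mem (ofNat_mem _ 2) (sub_mem h.pq.unit.2.2 (one_mem _))
  rw [← e5, ← hS_eq s.hN hI] at k6
  have e7 : p / q = 1 + 2 * 2 / (4 * q / (p - q)) := by field_simp; ring
  have k11 := h_add_le s.hD 1 (2 * 2 / (4 * q / (p - q)))
  have k12 := h_div_le (2 * 2) (4 * q / (p - q))
  have k13 := logHeight₁_mul_le (2 : K) 2
  have k14 := h_two_le (K := K) s.hD
  rw [← e7, logHeight₁_one] at k11
  have d1 : (5 * H + 4 * n) / n ≤ H / 16 + 4 := by
    rw [div_le_iff₀ (by linarith)]; nlinarith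
  have d2 : (2 * H + 2 * n) / n ≤ H / 40 + 2 := by
    rw [div_le_iff₀ (by linarith)]; nlinarith
  generalize (5 * H + 4 * n) / (n : ℝ) = A at *
  generalize (2 * H + 2 * n) / (n : ℝ) = B at *
  have m1 : hS N (y1 + y2) ≤ 3 * n + 2 * A + 2 * nfC n := by linarith
  have m2 : hS N (y3 + y4) ≤ 3 * n + 2 * A + 2 * nfC n := by linarith
  have m3 : hS N κ ≤ 6 * n + 2 * B + 2 * nfC n := by linarith
  have m4 : logHeight₁ (4 * q / (p - q)) ≤ 21 * n + 4 * A + 4 * B + 8 * nfC n := by linarith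
  have m5 : logHeight₁ (2 * 2 : K) ≤ 2 * n := by linarith
  have m6 := k11.trans (add_le_add le_rfl (k12.trans (add_le_add m5 m4)))
  linarith only [m6, d1, d2, hH, hn']

end Pool.Agent.Lib.MP_07b2d0_nt.Af
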