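import Mathlib
import Pool.Agent.Lib.MP_07b2d0_nt.Af.HS

/-!
Six points whose reductions split into two triples: any four types may be omitted.
-/

set_option autoImplicit false

namespace Pool.Agent.Lib.MP_07b2d0_nt.Af

open Finset Real NumberField Height Module

variable {K : Type} [Field K] [NumberField K] {n N : ℕ} {a : Fin 6 → K}

/-- The types separating `0` from `5`. -/
def T3 : List (Finset (Fin 6)) := [{0, 1, 2}, {0, 1, 3}, {0, 1, 4}, {0, 2, 3}, {0, 2, 4}, {0, 3, 4}]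

theorem dec_int : ∀ k l : Fin 6, [k, 0, 5, l].Nodup → ∀ A ∈ T3, ex A k l 5 0 ≤ 0 := by
  decide +kernel

theorem dec_ext : ∀ k l : Fin 6, [k, 0, 5, l].Nodup → ∃ r t, [0, 5, k, l, r, t].Nodup := by
  decide +kernel

theorem dec_nd : ∀ k l r t : Fin 6, [0, 5, k, l, r, t].Nodup → [k, 0, 5, l].Nodup ∧
    [r, 0, 5, k].Nodup ∧ [t, 0, 5, k].Nodup ∧ [r, 0, 5, l].Nodup ∧ [t, 0, 5, l].Nodup ∧
    [k, 0, 5, r].Nodup ∧ [l, 0, 5, t].Nodup ∧ ∀ A ∈ T3,
      ex A r k 5 0 + ex A t k 5 0 + ex A k 0 5 l - (ex A r l 5 0 + ex A t l 5 0) = 0 := by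
  decide +kernel

/-- Four types which do not occur in the degenerate case. -/
def Om (k l r t : Fin 6) : Finset (Finset (Fin 6)) := {{0, k, l}, {0, r, t}, {0, k, 5}, {0, r, 5}}

theorem dec_om : ∀ k l r t : Fin 6, [0, 5, k, l, r, t].Nodup → (Om k l r t).card = 4 ∧
    (∀ A ∈ Om k l r t, A.card = 3 ∧ 0 ∈ A) ∧
    (¬∃ i j, i ≠ j ∧ ∀ A ∈ Om k l r t, (i ∈ A ↔ j ∈ A)) ∧
    (∀ A ∈ T3, A ∈ Om k l r t → ex A k 0 5 r + ex A l 0 5 t ≠ 0) ∧
    ({0, k, r} : Finset (Fin 6)).card = 3 ∧ {0, k, r} ∉ Om k l r t := by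
  decide +kernel

theorem dec_T3 : ∀ A ∈ T3, A.card = 3 ∧ 0 ∈ A := by decide

theorem degen (h : Hyp N a T3) (ha : Function.Injective a) (s : Small K n N) (hn : 110 ≤ n)
    {k l r t : Fin 6} (hq : [0, 5, k, l, r, t].Nodup) (e : cr a k 0 5 r * cr a l 0 5 t = 1)
    (i j p q : Fin 6) (hq' : [i, j, p, q].Nodup) : logHeight₁ (cr a i j p q) ≤ g2C n := by
  obtain ⟨h1, h2, h3, h4, h5, h6⟩ := dec_om k l r t hq
  obtain ⟨-, -, -, -, -, d1, d2, -⟩ := dec_nd k l r t hq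
  refine genus_two s hn ha _ h1 h2 h3 (fun v hv => ?_) i j p q hq'
  obtain ⟨A, hA, m, hm⟩ := h v hv
  by_cases hO : A ∈ Om k l r t
  · have e1 := congrArg (ord v) e
    rw [ord_mul v (cr_ne_zero ha d1) (cr_ne_zero ha d2), hm _ _ _ _ d1, hm _ _ _ _ d2, ← mul_add,
      (fp_eq_one_iff v one_ne_zero).mp (map_one v)] at e1
    have e2 := (mul_eq_zero.mp e1).resolve_right (h4 A hA hO)
    refine ⟨{0, k, r}, h5, mem_insert_self _ _, h6, 0, fun i j k l hq => ?_⟩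
    rw [hm _ _ _ _ hq, e2]; simp
  · exact ⟨A, (dec_T3 A hA).1, (dec_T3 A hA).2, hO, m, hm⟩

theorem exists_roots {L : Type} [Field L] {b : Fin 6 → L} (hb : Function.Injective b)
    (hs : ∀ i j k l, [i, j, k, l].Nodup → IsSquare (cr b i j k l)) :
    ∃ c : Fin 6 → L, ∀ k l, [k, 0, 5, l].Nodup →
      c k ≠ 0 ∧ c l ≠ 0 ∧ c k ^ 2 = cr b k 0 5 l * c l ^ 2 := by
  have n1 := sub_ne hb (show 1 ≠ 0 by decide)
  have n2 := sub_ne hb (show 1 ≠ 5 by decide)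
  have h1 : ∀ k : Fin 6, ∃ c : L, k ≠ 0 → k ≠ 5 →
      c ^ 2 = (b k - b 0) * (b 1 - b 5) / ((b k - b 5) * (b 1 - b 0)) := by
    intro k
    by_cases h : [k, 0, 5, 1].Nodup
    · obtain ⟨c, hc⟩ := hs _ _ _ _ h
      refine ⟨c, fun _ _ => ?_⟩
      rw [sq, ← hc, cr, ← neg_sub (b 1) (b 5), ← neg_sub (b 1) (b 0), mul_neg, mul_neg,
        neg_div_neg_eq]
    · refine ⟨1, fun h0 h5 => ?_⟩
      obtain rfl : k = 1 := by revert k; decide
      field_simp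
  choose c hc using h1
  have h2 : ∀ k, k ≠ 0 → k ≠ 5 → c k ≠ 0 := fun k h0 h5 e => by
    have := hc k h0 h5
    rw [e, zero_pow two_ne_zero] at this
    exact div_ne_zero (mul_ne_zero (sub_ne hb h0) n2) (mul_ne_zero (sub_ne hb h5) n1) this.symm
  refine ⟨c, fun k l h => ?_⟩
  obtain ⟨e1, e2, -, -, e5, e6⟩ := nodup4.mp h
  refine ⟨h2 k e1 e2, h2 l e5.symm e6.symm, ?_⟩
  have n3 := sub_ne hb e2
  have n4 := sub_ne hb e5
  have n5 := sub_ne hb e6.symm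
  rw [hc k e1 e2, hc l e5.symm e6.symm, cr]
  field_simp
  ring

theorem case3 (h : Hyp N a T3) (ha : Function.Injective a) (s : Small K n N) (hn : 110 ≤ n)
    (i j k t : Fin 6) (hq : [i, j, k, t].Nodup) : logHeight₁ (cr a i j k t) ≤ g2C n := by
  by_cases hd : ∃ k l r t : Fin 6, [0, 5, k, l, r, t].Nodup ∧ cr a k 0 5 r * cr a l 0 5 t = 1
  · obtain ⟨k', l, r, t', h1, h2⟩ := hd
    exact degen h ha s hn h1 h2 i j k t hq
  obtain ⟨L, _, _, φ, s', hs⟩ := s.exists_sq ha h.even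
  have hb := φ.injective.comp ha
  obtain ⟨n', hn'⟩ : ∃ n', n' = extN (6 ^ 4) n := ⟨_, rfl⟩
  have hn1 : 110 ≤ n' := hn' ▸ hn.trans (le_extN _ _)
  rw [← hn'] at s'
  obtain ⟨c, hc⟩ := exists_roots hb fun i j k l h => (hs i j k l h).1
  have hsub : ∀ k l, [k, 0, 5, l].Nodup → c k ^ 2 - c l ^ 2 = -φ (cr a k l 5 0) * c l ^ 2 := by
    intro k l hq
    rw [map_cr, ← cr_sub_one hb hq, (hc k l hq).2.2]; ring
  obtain ⟨⟨p, q⟩, hpq, hmax⟩ := exists_max_image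
    (univ.filter fun x : Fin 6 × Fin 6 => [x.1, 0, 5, x.2].Nodup)
    (fun x => logHeight₁ (c x.1 / c x.2)) ⟨(1, 2), mem_filter.mpr ⟨mem_univ _, by decide⟩⟩
  obtain ⟨H, hH⟩ : ∃ H, H = logHeight₁ (c p / c q) := ⟨_, rfl⟩
  have hP : ∀ k l, [k, 0, 5, l].Nodup → Pr N H (c k) (c l) := by
    intro k l hq
    obtain ⟨e1, e2, -⟩ := hc k l hq
    have e3 : φ (cr a k l 5 0) ≠ 0 := (map_ne_zero φ).mpr (cr_ne_zero ha (nodup_swap hq))
    refine ⟨e1, e2, ?_, ?_, hH ▸ hmax (k, l) (mem_filter.mpr ⟨mem_univ _, hq⟩)⟩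
    · rw [hsub k l hq]; exact mul_ne_zero (neg_ne_zero.mpr e3) (pow_ne_zero _ e2)
    · have e4 : c l ^ 2 / (c k ^ 2 - c l ^ 2) = -φ (cr a k l 5 0)⁻¹ := by
        rw [hsub k l hq, map_inv₀]; field_simp
      rw [e4]
      refine neg_mem (map_mem_RN φ s.hN (mem_RN_iff_ord.mpr fun v hv => ?_))
      obtain ⟨A, hA, m, hm⟩ := h v hv
      rw [ord_inv, hm _ _ _ _ (nodup_swap hq), neg_nonneg]
      exact mul_nonpos_of_nonneg_of_nonpos (Int.natCast_nonneg m) (dec_int k l hq A hA)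
  obtain ⟨r, t', hq'⟩ := dec_ext p q (mem_filter.mp hpq).2
  obtain ⟨d1, d2, d3, d4, d5, d6, d7, d8⟩ := dec_nd p q r t' hq'
  have c1 := cr_ne_zero ha d1
  have c2 := cr_ne_zero ha (nodup_swap d2)
  have c3 := cr_ne_zero ha (nodup_swap d3)
  have c4 := cr_ne_zero ha (nodup_swap d4)
  have c5 := cr_ne_zero ha (nodup_swap d5)
  have hQ : Qd N H (c p) (c q) (c r) (c t') := by
    refine ⟨hP _ _ d1, hP _ _ d2, hP _ _ d3, hP _ _ d4, hP _ _ d5, ?_, fun e => hd ?_⟩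
    · have e1 : IsU N (cr a r p 5 0 * cr a t' p 5 0 * cr a p 0 5 q /
          (cr a r q 5 0 * cr a t' q 5 0)) := by
        refine isU_of_ord (div_ne_zero (mul_ne_zero (mul_ne_zero c2 c3) c1) (mul_ne_zero c4 c5))
          fun v hv => ?_
        obtain ⟨A, hA, m, hm⟩ := h v hv
        rw [ord_div v (mul_ne_zero (mul_ne_zero c2 c3) c1) (mul_ne_zero c4 c5),
          ord_mul v (mul_ne_zero c2 c3) c1, ord_mul v c2 c3, ord_mul v c4 c5, hm _ _ _ _ d1,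
          hm _ _ _ _ (nodup_swap d2), hm _ _ _ _ (nodup_swap d3), hm _ _ _ _ (nodup_swap d4),
          hm _ _ _ _ (nodup_swap d5)]
        linear_combination (m : ℤ) * d8 A hA
      convert e1.map φ s.hN using 1
      obtain ⟨e2, e3, e4⟩ := hc p q d1
      have e5 : φ (cr a p 0 5 q) = c p ^ 2 / c q ^ 2 := by rw [e4, map_cr]; field_simp
      have c4' := (map_ne_zero φ).mpr c4
      have c5' := (map_ne_zero φ).mpr c5
      rw [hsub _ _ d2, hsub _ _ d3, hsub _ _ d4, hsub _ _ d5, map_div₀, map_mul, map_mul, map_mul,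
        e5]
      field_simp
    · refine ⟨p, q, r, t', hq', φ.injective ?_⟩
      obtain ⟨-, e2, e3⟩ := hc p r d6
      obtain ⟨-, e4, e5⟩ := hc q t' d7
      rw [map_mul, map_cr, map_cr, map_one]
      refine mul_right_cancel₀ (mul_ne_zero (pow_ne_zero 2 e2) (pow_ne_zero 2 e4)) ?_
      rw [mul_pow, mul_pow, e3, e5] at e
      linear_combination e
  have hle := hQ.ht_le s' (by omega)
  rw [← hH] at hle
  have hg : (g2H n : ℝ) = 442 * nfC n' + 1105 * n' := by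
    rw [g2H, ← hn', pellC]; push_cast; ring
  have key : ∀ k l, [k, 0, 5, l].Nodup → logHeight₁ (crq a (k, 0, 5, l)) ≤ g2H n := by
    intro k l hq
    refine height_of_map φ ?_
    obtain ⟨-, e2, e3⟩ := hc k l hq
    have e4 : crq (φ ∘ a) (k, 0, 5, l) = (c k / c l) ^ 2 := by
      rw [div_pow, e3, crq]; field_simp
    have e5 := (hP k l hq).ht
    rw [e4, logHeight₁_pow, hg]
    push_cast
    linarith [Nat.cast_nonneg (α := ℝ) (nfC n'), Nat.cast_nonneg (α := ℝ) n']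
  rw [g2C]; push_cast
  refine h.finish ha s [(1, 0, 5, 2), (1, 0, 5, 3)] (by decide +kernel) ?_ (by decide) i j k t hq
  simp only [List.forall_mem_cons, List.not_mem_nil, false_imp_iff, implies_true, and_true]
  exact ⟨key 1 2 (by decide), key 1 3 (by decide)⟩

/-- A relabelling carrying `0, 5` to `i, j`. -/
def sg (i j k : Fin 6) : Fin 6 := Equiv.swap 0 i (Equiv.swap 5 (Equiv.swap 0 i j) k)

theorem dec_sg : ∀ i j : Fin 6, i ≠ j →
    (univ.filter fun t => (i ∈ ty t ↔ j ∈ ty t)).card = 4 ∧ ∀ t, ¬(i ∈ ty t ↔ j ∈ ty t) →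
      ∃ B ∈ T3, (∀ k, sg i j k ∈ ty t ↔ k ∈ B) ∨ ∀ k, ¬(sg i j k ∈ ty t ↔ k ∈ B) := by
  decide +kernel

theorem genus_two_all (s : Small K n N) (hn : 110 ≤ n) (ha : Function.Injective a)
    (O : Finset (Finset (Fin 6))) (hO : O.card = 4) (hO' : ∀ A ∈ O, A.card = 3 ∧ 0 ∈ A)
    (h : ∀ v : FinitePlace K, v (N : K) = 1 → ∃ A : Finset (Fin 6), A.card = 3 ∧ 0 ∈ A ∧ A ∉ O ∧
      ∃ m : ℕ, ∀ i j k l, [i, j, k, l].Nodup → ord v (cr a i j k l) = m * ex A i j k l)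
    (i j k t : Fin 6) (hq : [i, j, k, t].Nodup) : logHeight₁ (cr a i j k t) ≤ g2C n := by
  by_cases hp : ∃ i j, i ≠ j ∧ ∀ A ∈ O, (i ∈ A ↔ j ∈ A)
  swap
  · exact genus_two s hn ha O hO hO' hp h i j k t hq
  obtain ⟨p, q, hpq, hp⟩ := hp
  obtain ⟨h1, h2⟩ := dec_sg p q hpq
  have h3 : O = (univ.filter fun t => (p ∈ ty t ↔ q ∈ ty t)).image ty := by
    refine eq_of_subset_of_card_le (fun A hA => ?_)
      (by rw [card_image_of_injective _ ty_inj, h1, hO])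
    obtain ⟨t, rfl⟩ := ty_surj A (hO' A hA).1 (hO' A hA).2
    exact mem_image_of_mem _ (mem_filter.mpr ⟨mem_univ _, hp _ hA⟩)
  have hσ : Function.Injective (sg p q) := (Equiv.injective _).comp (Equiv.injective _)
  obtain ⟨σ, hσd⟩ : ∃ σ, σ = sg p q := ⟨_, rfl⟩
  rw [← hσd] at hσ h2
  have key : Hyp N (a ∘ σ) T3 := by
    intro v hv
    obtain ⟨A, e1, e2, e3, m, hm⟩ := h v hv
    obtain ⟨t, rfl⟩ := ty_surj A e1 e2
    obtain ⟨B, hB, e4⟩ := h2 t fun e =>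
      e3 (h3 ▸ mem_image_of_mem _ (mem_filter.mpr ⟨mem_univ _, e⟩))
    refine ⟨B, hB, m, fun i j k l hq => ?_⟩
    have e5 : ∀ i j, same (ty t) (σ i) (σ j) = same B i j := fun i j => by
      unfold same
      refine if_congr ?_ rfl rfl
      rcases e4 with e4 | e4
      · rw [e4, e4]
      · have := e4 i
        have := e4 j
        tauto
    have e6 := hm (σ i) (σ j) (σ k) (σ l) (by simpa using hq.map hσ)
    simp only [ex, e5] at e6
    exact e6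
  have hs := Finite.injective_iff_surjective.mp hσ
  obtain ⟨i, rfl⟩ := hs i
  obtain ⟨j, rfl⟩ := hs j
  obtain ⟨k, rfl⟩ := hs k
  obtain ⟨t, rfl⟩ := hs t
  exact case3 key (ha.comp hσ) s hn i j k t (List.Nodup.of_map σ (by simpa using hq))

end Pool.Agent.Lib.MP_07b2d0_nt.Af
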