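import Mathlib
import Pool.Agent.Lib.MP_07b2d0_nt.KT4
import Pool.Agent.Lib.MP_07b2d0_nt.KU1
import Pool.Agent.Lib.MP_07b2d0_nt.Af.Four

/-!
Global height bounds when degeneration types are omitted.
-/

set_option autoImplicit false

namespace Pool.Agent.Lib.MP_07b2d0_nt.Ks

open Finset Real NumberField Height Module

theorem global_chain : ∃ c : ℕ → ℕ, Primrec c ∧ ∀ (K : Type) [Field K] [NumberField K]
    (n N ℓ r : ℕ) (a : Fin r → K), Small K n N → ℓ.Prime → ℓ ∣ N → r ≤ n →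
    Function.Injective a →
    (∀ v : FinitePlace K, v (N : K) = 1 → ∀ i j p q, [i, j, p, q].Nodup →
      (ℓ : ℤ) ∣ ord v (cr a i j p q)) →
    (∀ q : Fin r, 3 ≤ q.1 → ∃ i < q, ∃ j < q, ∃ p < q, i ≠ j ∧ i ≠ p ∧ j ≠ p ∧
      ∀ v : FinitePlace K, v (N : K) = 1 →
        1 ≤ v (cr a i j p q) ∧ (ℓ = 2 → 1 ≤ v (cr a i p j q))) →
    ∀ p q s t, [p, q, s, t].Nodup → logHeight₁ (cr a p q s t) ≤ c n := by
  obtain ⟨c, hc, H⟩ := kum_unit
  obtain ⟨c', hc', H'⟩ := good_values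
  refine ⟨fun n => 12 ^ n * (c n + c' n + n),
    pr_mul (pr_pow (.const _) .id) (pr_add (pr_add hc hc') .id), ?_⟩
  intro K _ _ n N ℓ r a s hℓ hN hr ha hD hc p q u t hq
  classical
  obtain ⟨B, hB⟩ : ∃ B : ℝ, B = c n + c' n + n := ⟨_, rfl⟩
  have c0 : (0 : ℝ) ≤ c n := Nat.cast_nonneg _
  have c1 : (0 : ℝ) ≤ c' n := Nat.cast_nonneg _
  have c2 : (0 : ℝ) ≤ n := Nat.cast_nonneg _
  have B0 : 0 ≤ B := by linarith
  have key : ∀ m : ℕ, ∀ p q u t : Fin r, p.1 < m → q.1 < m → u.1 < m → t.1 < m →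
      [p, q, u, t].Nodup → logHeight₁ (cr a p q u t) ≤ 12 ^ m * B := by
    intro m
    induction m with
    | zero => exact fun p _ _ _ h => absurd h (Nat.not_lt_zero _)
    | succ m ih =>
      intro p q u t h1 h2 h3 h4 hq
      have e0 : B ≤ 12 ^ m * B := le_mul_of_one_le_left B0 (one_le_pow₀ (by norm_num))
      by_cases hm : m < r
      swap
      · refine (ih p q u t (by omega) (by omega) (by omega) (by omega) hq).trans ?_
        rw [pow_succ]; linarith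
      have h3m : 3 ≤ m := by
        obtain ⟨n1, n2, n3, n4, n5, n6⟩ := nodup4.1 hq
        rw [Ne, Fin.ext_iff] at n1 n2 n3 n4 n5 n6
        omega
      obtain ⟨i, hi, j, hj, k, hk, hij, hik, hjk, h⟩ := hc ⟨m, hm⟩ h3m
      obtain ⟨w, hw⟩ : ∃ w : Fin r, w = ⟨m, hm⟩ := ⟨_, rfl⟩
      rw [← hw] at hi hj hk h
      have nd : [i, k, j, w].Nodup := nodup4.2 ⟨hik, hij, hi.ne, hjk.symm, hk.ne, hj.ne⟩
      have e1 : cr a i k j w ∈ RN K N := kt3_int fun v hv => (h v hv).1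
      have e2 : cr a i w j k = 1 - cr a i k j w := by
        linear_combination cr_sub_one ha nd
      have e3 : logHeight₁ (cr a i w j k) ≤ B := by
        have e4 : cr a i w j k ∈ RN K N := e2 ▸ sub_mem (one_mem _) e1
        by_cases h2 : ℓ = 2
        · have := H K n N ℓ _ s hℓ hN e4 (by
            rw [e2, sub_sub_cancel_left]
            exact IsU.neg ⟨cr_ne_zero ha nd, e1, kt3_inv fun v hv => (h v hv).2 h2⟩)
            fun v hv => hD v hv _ _ _ _ (nodup_swap nd)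
          linarith
        · have := H' K n N ℓ _ {0, 1} s hℓ hN e4 (by simp) (fun h => absurd h h2) (by simp)
            (fun d hd v hv => by
              rcases mem_insert.1 hd with rfl | hd
              · rw [sub_zero]; exact hD v hv _ _ _ _ (nodup_swap nd)
              · rw [mem_singleton.1 hd, e2, sub_sub_cancel_left, ord_neg]
                exact hD v hv _ _ _ _ nd)
          linarith
      have hi' : i.1 < m := by simpa [hw, Fin.lt_def] using hi
      have hj' : j.1 < m := by simpa [hw, Fin.lt_def] using hj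
      have hk' : k.1 < m := by simpa [hw, Fin.lt_def] using hk
      have := cr_of_ref s.hD ha (fun x => x.1 < m + 1) hij hik hjk (B0.trans e0)
        (fun x hx x1 x2 x3 => by
          by_cases hxm : x.1 < m
          · exact ih i x j k hi' hxm hj' hk' (nodup4.2 ⟨x1.symm, hij, hik, x2, x3, hjk⟩)
          · obtain rfl : x = w := by rw [hw]; exact Fin.ext (by simp only; omega)
            exact e3.trans e0) hq h1 h2 h3 h4
      rw [pow_succ]; linarith
  have := key n p q u t (by omega) (by omega) (by omega) (by omega) hq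
  push_cast
  rwa [← hB]

theorem one_le_cr {K ι : Type} [Field K] [NumberField K] {a : ι → K} (ha : Function.Injective a)
    {v : FinitePlace K} {i j p q : ι} (h1 : i ≠ p) (h2 : j ≠ q)
    (h : v (a i - a p) * v (a j - a q) ≤ v (a i - a j) * v (a p - a q)) : 1 ≤ v (cr a i j p q) := by
  rw [cr, map_div₀, map_mul, map_mul, one_le_div (mul_pos (FinitePlace.pos_iff.2 (sub_ne ha h1))
    (FinitePlace.pos_iff.2 (sub_ne ha h2)))]
  exact h

theorem omit_bound : ∃ c : ℕ → ℕ, Primrec c ∧ ∀ (K : Type) [Field K] [NumberField K]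
    (n N ℓ r : ℕ) (a : Fin r → K) (e : Fin r → ℕ) (R : FinitePlace K → Fin r → Fin r → Fin r →
      Fin r → Prop), Small K n N → 110 ≤ n → ℓ.Prime → ℓ ∣ N → r ≤ n →
    Function.Injective a → (∀ i, ¬ ℓ ∣ e i) → LocK ℓ N a e →
    (∀ v i j p q, R v i j p q → v (a i - a p) * v (a j - a q) ≤ v (a i - a j) * v (a p - a q)) →
    ((∀ q : Fin r, 3 ≤ q.1 → ∃ i < q, ∃ j < q, ∃ p < q, i ≠ j ∧ i ≠ p ∧ j ≠ p ∧
      ∀ v : FinitePlace K, v (N : K) = 1 → R v i j p q ∧ (ℓ = 2 → R v i p j q)) ∨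
    (ℓ = 2 ∧ r = 6 ∧ ∃ O : Finset (Finset (Fin r)), O.card = 4 ∧
      (∀ T ∈ O, T.card = 3 ∧ ∃ o ∈ T, o.1 = 0) ∧ ∀ v : FinitePlace K, v (N : K) = 1 → ∀ T ∈ O,
        ∃ i ∈ T, ∃ j ∈ T, ∃ p ∉ T, ∃ q ∉ T, R v i j p q)) →
    ∀ p q s t, [p, q, s, t].Nodup → logHeight₁ (cr a p q s t) ≤ c n := by
  obtain ⟨c, hc, H⟩ := global_chain
  refine ⟨fun n => c n + g2C n, pr_add hc pr_g2C, ?_⟩
  intro K _ _ n N ℓ r a e R s hn hℓ hN hr ha he hL hR h p q u t hq
  have hD := fun v hv i j p q h => (hL v hv).2 i j p q h (he _) (he _) (he _) (he _)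
  push_cast
  rcases h with h | ⟨rfl, rfl, O, hO, hO', h⟩
  · refine (H K n N ℓ r a s hℓ hN hr ha hD (fun w hw => ?_) p q u t hq).trans
      (le_add_of_nonneg_right (Nat.cast_nonneg _))
    obtain ⟨i, hi, j, hj, k, hk, hij, hik, hjk, h⟩ := h w hw
    exact ⟨i, hi, j, hj, k, hk, hij, hik, hjk, fun v hv =>
      ⟨one_le_cr ha hik hj.ne (hR _ _ _ _ _ (h v hv).1),
        fun h2 => one_le_cr ha hij hk.ne (hR _ _ _ _ _ ((h v hv).2 h2))⟩⟩
  · refine (Af.genus_two_all s hn ha O hO (fun T hT => ⟨(hO' T hT).1, ?_⟩) (fun v hv => ?_)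
      p q u t hq).trans (le_add_of_nonneg_left (Nat.cast_nonneg _))
    · obtain ⟨o, h1, h2⟩ := (hO' T hT).2
      exact (Fin.ext h2 : o = 0) ▸ h1
    refine hyp_of_loc ha (fun I J b1 b2 b3 b4 b5 => (hL v hv).1 I J b1
      (fun i => ⟨fun _ => (b2 i).1 (by norm_num), fun _ => he i⟩) b3 b4 ?_) (hD v hv) O hO
      fun A hA hS => ?_
    · have e1 : ∑ i ∈ I, e i ≡ ∑ i ∈ I, 1 [MOD 2] :=
        Nat.ModEq.sum fun i _ => Nat.two_dvd_ne_zero.1 (he i)
      exact (e1.dvd_iff dvd_rfl).2 b5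
    · obtain ⟨i, hi, i', hi', j, hj, j', hj', H⟩ := h v hv A hA
      exact (hS i hi i' hi' j (mem_compl.mpr hj) j' (mem_compl.mpr hj')).not_ge (hR _ _ _ _ _ H)

end Pool.Agent.Lib.MP_07b2d0_nt.Ks
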