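import Mathlib

/-!
Degeneration types of branch points which do not occur.
-/

set_option autoImplicit false

namespace Pool.Agent.Lib.MP_07b2d0_nt.St

/-- At `V` the points `a i, a j` do not come together away from `a p, a q`: the inverse of the
cross ratio lies in `V`. -/
def Nd {Ω ι : Type} [Field Ω] (a : ι → Ω) (V : ValuationSubring Ω) (i j p q : ι) : Prop :=
  ∃ z ∈ V, z * ((a i - a j) * (a p - a q)) = (a i - a p) * (a j - a q)

/-- Outside `N`, either each point from the fourth on forms with three earlier points a quadruple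
one of whose three splittings into pairs (two if `ℓ = 2`) never occurs, or `ℓ = 2`, there are six
points, and four of the ten splittings into triples never occur. -/
def Omit (ℓ N : ℕ) {Ω : Type} [Field Ω] {r : ℕ} (a : Fin r → Ω) : Prop :=
  (∀ q : Fin r, 3 ≤ q.1 → ∃ i < q, ∃ j < q, ∃ p < q, i ≠ j ∧ i ≠ p ∧ j ≠ p ∧
    ∀ V : ValuationSubring Ω, (N : Ω)⁻¹ ∈ V → Nd a V i j p q ∧ (ℓ = 2 → Nd a V i p j q)) ∨
  (ℓ = 2 ∧ r = 6 ∧ ∃ O : Finset (Finset (Fin r)), O.card = 4 ∧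
    (∀ T ∈ O, T.card = 3 ∧ ∃ o ∈ T, o.1 = 0) ∧
    ∀ V : ValuationSubring Ω, (N : Ω)⁻¹ ∈ V → ∀ T ∈ O,
      ∃ i ∈ T, ∃ j ∈ T, ∃ p ∉ T, ∃ q ∉ T, Nd a V i j p q)

end Pool.Agent.Lib.MP_07b2d0_nt.St
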