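import Pool.Agent.Lib.MP_07b2d0_nt.Tq.Ns
import Pool.Agent.Lib.MP_07b2d0_nt.Af.Chain
import Pool.Agent.Lib.MP_07b2d0_nt.Af.St

/-!
The effective bound for the Faltings height when degeneration types are omitted.
-/

set_option autoImplicit false

namespace Pool.Agent.Lib.MP_07b2d0_nt.Af

open CategoryTheory AlgebraicGeometry Polynomial NumberField Height Fh Kh Tq

theorem omit_main : ∃ c : ℕ × ℕ × ℕ → ℕ, Computable c ∧
    ∀ (ℓ N g r : ℕ) (k : Type) [Field k] [NumberField k] (A : Over (Spec (.of (ON k N))))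
      (f : k[X]) (c₀ : AlgebraicClosure k) (a : Fin r → AlgebraicClosure k) (e : Fin r → ℕ),
      ℓ.Prime → 0 < N → (∀ p : ℕ, p.Prime → (p : ℤ) ∣ discr k → p ∣ N) →
      f.map (algebraMap k (AlgebraicClosure k)) = C c₀ * ∏ i, (X - C (a i)) ^ e i → c₀ ≠ 0 →
      Function.Injective a → (∀ i, ¬ ℓ ∣ e i) → ℓ ∣ ∑ i, e i → 5 ≤ r →
      2 * g + 2 * ℓ = 2 + r * (ℓ - 1) → St.Omit ℓ N a →
      St.KumJac g ℓ (algebraMap (ON k N) k) (fun _ : Fin 1 => f) A →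
      HLe g (algebraMap (ON k N) k) A (c (N, g, Module.finrank ℚ k)) := by
  obtain ⟨c, hc, H⟩ := Ks.omit_bound
  have p1 : Primrec fun z : ℕ × ℕ × ℕ => z.2.1 := Primrec.fst.comp .snd
  refine ⟨fun z => fin5 (fun z => c (par z.1 z.2))
      (z.1, z.2.1, (6 * z.2.1) ^ (6 * z.2.1) * z.2.2),
    ((pr_fin5 (hc.comp pr_par)).comp (.pair .fst (.pair p1 (pr_mul (pr_pow (pr_mul (.const _) p1)
      (pr_mul (.const _) p1)) (Primrec.snd.comp .snd))))).to_comp, ?_⟩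
  intro ℓ N g r k _ _ A f c₀ a e hℓ hN hk hf hc₀ ha he hs hr hG hT hA
  obtain ⟨R, _, _, X₀, Y, _, _, _, j, hP, hJ⟩ := of_kumJac hA
  obtain ⟨n1, n2, n4⟩ : ℓ ≤ 2 * g ∧ ℓ ≤ 4 * g ^ 2 ∧ r ≤ 6 * g := by
    obtain ⟨s, rfl⟩ := Nat.exists_eq_add_of_le' hℓ.two_le
    obtain ⟨u, rfl⟩ := Nat.exists_eq_add_of_le' hr
    have h1 : 2 * g = (u + 3) * (s + 1) := by
      rw [show s + 2 - 1 = s + 1 from rfl] at hG
      linarith
    have h2 : s + 2 ≤ 2 * g := by nlinarith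
    exact ⟨h2, by nlinarith, by nlinarith⟩
  have hℓN : ℓ ∣ N * (2 * g).factorial := (Nat.dvd_factorial hℓ.pos n1).mul_left _
  have h0 : 0 < N * (2 * g).factorial := Nat.mul_pos hN (Nat.factorial_pos _)
  obtain ⟨K, _, _, _, c', a', ψ, k1, k2, k3, k4, k5⟩ := exists_split hJ hP hf hℓ hr hc₀ ha he hs
    (dvd_mul_right _ _) hℓN h0.ne' fun p hp h => (hk p hp h).mul_right _
  have k6 : Module.finrank ℚ K ≤ (6 * g) ^ (6 * g) * Module.finrank ℚ k :=
    k1.trans (by gcongr; omega)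
  have k7 : r ≤ (6 * g) ^ (6 * g) * Module.finrank ℚ k :=
    (n4.trans (Nat.le_self_pow (by omega) _)).trans
      (Nat.le_mul_of_pos_right _ Module.finrank_pos)
  have b1 : algebraMap K (AlgebraicClosure K) c' ≠ 0 := k4 ▸ (map_ne_zero ψ).2 hc₀
  have b2 : Function.Injective fun i => algebraMap K (AlgebraicClosure K) (a' i) :=
    funext k5 ▸ ψ.injective.comp ha
  obtain ⟨F, _, _, _, x, y, f1, f2, -, f4, f5⟩ := exists_tate' hJ hP K (by
    rw [IsScalarTower.algebraMap_eq k K, ← Polynomial.map_map, k3]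
    simp [Polynomial.map_prod]) hℓ (by omega) b1 b2 he hs (dvd_mul_right _ _) hℓN h0.ne'
  have hD : (od (fun _ : Fin 1 => c') a').Ok ℓ fun _ => e := ⟨cmb_one hℓ (by omega) he hs,
    fun _ => (_root_.map_ne_zero _).1 b1, fun _ => one_ne_zero, (od_a _ a').symm ▸ .of_comp b2⟩
  obtain ⟨R', _, _, X₁, Y₁, j', hP', hJ'⟩ := isJ_bc (K := K) hP hJ
  rw [k3, ← funext (od_F (fun _ : Fin 1 => c') a' fun _ => e)] at hP'
  have hL := (Ks.local_K' (x := x) (y := y) (c := algebraMap K _ c') (a := a') (w := e)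
    ⟨hℓ, f1.2.2.1, f1.2.2.2, by simp [f4, map_prod], b1, b2, hs⟩ f1 f2 hℓN f5).mono
      (dvd_mul_left _ 2)
  choose V hV using fun v : FinitePlace K => exists_val_of_place v
  have hN' : ∀ v : FinitePlace K, v ((2 * (N * (2 * g).factorial) : ℕ) : K) = 1 →
      (N : AlgebraicClosure k)⁻¹ ∈ (V v).comap (ψ : _ →+* _) := fun v hv => by
    have h6 := (hV v (N : K)⁻¹ 1).2 (by
      rw [map_inv₀, fp_eq_one_of_dvd ((dvd_mul_right N _).mul_left 2) hv, inv_one, map_one])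
    rw [map_one, map_one, (V v).valuation_le_one_iff] at h6
    simpa using h6
  refine (hLe_bc (hJ'.hLe hP' hD (by omega) (Fintype.equivFinOfCardEq (hD.cmb.card one_pos
    (by simpa using hG))).symm (H K _ _ ℓ r a' e
      (fun v => St.Nd a ((V v).comap (ψ : _ →+* _))) (small_of_le h0.ne' k2 k6)
      (Nat.le_add_left _ _) hℓ (hℓN.mul_left 2) (k7.trans (by unfold par; omega)) (.of_comp b2)
      he hL (fun v i j p q ⟨z, hz, h⟩ => ?_) (hT.imp (fun h q hq => ?_)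
        fun ⟨h1, h2, O, h3, h4, h5⟩ => ⟨h1, h2, O, h3, h4, fun v hv => h5 _ (hN' v hv)⟩)))).mono ?_
  · rw [← map_mul, ← map_mul, ← hV, ValuationSubring.valuation_le_iff]
    exact ⟨⟨ψ z, hz⟩, by simpa [k5] using congrArg ψ h⟩
  · obtain ⟨i, hi, j, hj, p, hp, h1, h2, h3, h⟩ := h q hq
    exact ⟨i, hi, j, hj, p, hp, h1, h2, h3, fun v hv => h _ (hN' v hv)⟩
  rw [bd, one_mul]
  unfold fin5 h1
  dsimp only
  gcongr

end Pool.Agent.Lib.MP_07b2d0_nt.Af
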